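import Pool.Agent.H69.KZ.Stm

/-!
# Crew KZ, part GRO: small d
-/

set_option autoImplicit false

namespace Pool.Agent.H87.KZ

open Finset _root_.KZ

/-- the constant -/
noncomputable def CC : ℝ := 10 ^ 17

lemma log_pos_of {n : ℕ} (hn : 2 ≤ n) : 0.69 ≤ Real.log n := by
  have h1 : Real.log 2 ≤ Real.log n := by
    apply Real.log_le_log (by norm_num)
    exact_mod_cast hn
  have h2 := Real.log_two_gt_d9
  linarith

lemma n_big {n k : ℕ} (hn : 2 ≤ n) (hk : 1 ≤ k) (hC : CC * (k : ℝ) * Real.log n ≤ n) :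
    (6.9e16 : ℝ) ≤ n := by
  have h1 := log_pos_of hn
  have hk' : (1 : ℝ) ≤ k := by exact_mod_cast hk
  have h2 : CC * 1 * 0.69 ≤ CC * (k : ℝ) * Real.log n := by
    have : (0 : ℝ) ≤ CC := by unfold CC; positivity
    have h3 : CC * 1 ≤ CC * (k : ℝ) := mul_le_mul_of_nonneg_left hk' this
    exact mul_le_mul h3 h1 (by norm_num) (by positivity)
  have h3 : CC * 1 * 0.69 = 6.9e16 := by unfold CC; norm_num
  linarith

lemma log4 {n : ℕ} (hn : (6.9e16 : ℝ) ≤ n) : 43808 * Real.log n ^ 4 ≤ n := by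
  have hn0 : (0 : ℝ) ≤ n := by positivity
  set r : ℝ := (n : ℝ) ^ ((1 : ℝ) / 8) with hr
  have hr0 : 0 ≤ r := Real.rpow_nonneg hn0 _
  have h8 : r ^ 8 = n := by
    rw [hr, ← Real.rpow_natCast, ← Real.rpow_mul hn0]
    norm_num
  have hl : Real.log n ≤ r / (1 / 8) := Real.log_le_rpow_div hn0 (by norm_num)
  have hl2 : Real.log n ≤ 8 * r := by
    have : r / (1 / 8) = 8 * r := by ring
    linarith
  have hlog0 : 0 ≤ Real.log n := Real.log_natCast_nonneg n
  have h4 : Real.log n ^ 4 ≤ (8 * r) ^ 4 := pow_le_pow_left₀ hlog0 hl2 4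
  have h5 : (2.5e8 : ℝ) ≤ r ^ 4 := by
    by_contra hcon
    push Not at hcon
    have : (r ^ 4) ^ 2 < (2.5e8 : ℝ) ^ 2 := pow_lt_pow_left₀ hcon (by positivity) (by norm_num)
    have h6 : (r ^ 4) ^ 2 = n := by rw [← h8]; ring
    rw [h6] at this
    norm_num at this
    norm_num at hn
    linarith
  calc 43808 * Real.log n ^ 4 ≤ 43808 * (8 * r) ^ 4 := by linarith
    _ = (179437568 : ℝ) * r ^ 4 := by ring
    _ ≤ r ^ 4 * r ^ 4 := by
        apply mul_le_mul_of_nonneg_right _ (by positivity)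
        norm_num at h5 ⊢
        linarith
    _ = n := by rw [← h8]; ring

/-- the L-dominance condition -/
lemma dom_cond {n k d : ℕ} (hn : 2 ≤ n) (hk : 2 ≤ k) (hC : CC * (k : ℝ) * Real.log n ≤ n)
    (hd : (d : ℝ) ≤ 74 * Real.log n) :
    k * d ≤ n ∧ 8 * (n : ℝ) * ((k : ℝ) * (d : ℝ)) ^ k ≤ (n : ℝ) ^ k := by
  have hx := log_pos_of hn
  have hbig := n_big hn (by omega) hC
  have hk' : (2 : ℝ) ≤ k := by exact_mod_cast hk
  have hn0 : (0 : ℝ) < n := by positivity
  set x := Real.log n with hxdef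
  have hkd : (k : ℝ) * d ≤ 74 * k * x := by
    calc (k : ℝ) * d ≤ k * (74 * x) := by gcongr
      _ = 74 * k * x := by ring
  have hkx : (k : ℝ) * x * 10 ^ 17 ≤ n := by
    have : CC * (k : ℝ) * x = (k : ℝ) * x * 10 ^ 17 := by unfold CC; ring
    linarith
  have hkx0 : 0 ≤ (k : ℝ) * x := by positivity
  have h55 : 55 * ((k : ℝ) * d) ≤ n := by nlinarith
  refine ⟨?_, ?_⟩
  · have : (k : ℝ) * d ≤ n := by
      have : 0 ≤ (k : ℝ) * d := by positivity
      linarith
    exact_mod_cast this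
  · by_cases hc : (k : ℝ) < x
    · -- k small
      have h1 : (k : ℝ) * d ≤ 74 * x ^ 2 := by nlinarith
      have h2 := log4 hbig
      rw [← hxdef] at h2
      have h3 : 8 * (n : ℝ) * ((k : ℝ) * d) ^ 2 ≤ (n : ℝ) ^ 2 := by
        have h4 : ((k : ℝ) * d) ^ 2 ≤ (74 * x ^ 2) ^ 2 :=
          pow_le_pow_left₀ (by positivity) h1 2
        have h5 : 8 * ((k : ℝ) * d) ^ 2 ≤ n := by
          have : 8 * (74 * x ^ 2) ^ 2 = 43808 * x ^ 4 := by ring
          linarith
        calc 8 * (n : ℝ) * ((k : ℝ) * d) ^ 2 = (n : ℝ) * (8 * ((k : ℝ) * d) ^ 2) := by ring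
          _ ≤ (n : ℝ) * (n : ℝ) := mul_le_mul_of_nonneg_left h5 hn0.le
          _ = (n : ℝ) ^ 2 := by ring
      obtain ⟨j, rfl⟩ : ∃ j, k = 2 + j := ⟨k - 2, by omega⟩
      rw [pow_add, pow_add]
      have h6 : (((2 + j : ℕ) : ℝ) * d) ^ j ≤ (n : ℝ) ^ j := by
        apply pow_le_pow_left₀ (by positivity)
        have : 0 ≤ ((2 + j : ℕ) : ℝ) * (d : ℝ) := by positivity
        linarith
      calc 8 * (n : ℝ) * ((((2 + j : ℕ) : ℝ) * d) ^ 2 * (((2 + j : ℕ) : ℝ) * d) ^ j)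
          = (8 * (n : ℝ) * (((2 + j : ℕ) : ℝ) * d) ^ 2) * (((2 + j : ℕ) : ℝ) * d) ^ j := by ring
        _ ≤ (n : ℝ) ^ 2 * (n : ℝ) ^ j := by
            apply mul_le_mul h3 h6 (by positivity) (by positivity)
    · push Not at hc
      have h1 : (55 : ℝ) ^ k * ((k : ℝ) * d) ^ k ≤ (n : ℝ) ^ k := by
        rw [← mul_pow]
        exact pow_le_pow_left₀ (by positivity) h55 k
      have h2 : 8 * (n : ℝ) ≤ (55 : ℝ) ^ k := by
        have he : Real.exp 1 ≤ 2.7182818286 := Real.exp_one_lt_d9.le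
        have h3 : Real.exp (4 * x) ≤ (55 : ℝ) ^ k := by
          calc Real.exp (4 * x) ≤ Real.exp (4 * k) := by
                apply Real.exp_le_exp.mpr; linarith
            _ = (Real.exp 1 ^ 4) ^ k := by
                rw [← pow_mul, ← Real.exp_nat_mul]
                push_cast
                ring_nf
            _ ≤ (55 : ℝ) ^ k := by
                apply pow_le_pow_left₀ (by positivity)
                calc Real.exp 1 ^ 4 ≤ (2.7182818286 : ℝ) ^ 4 :=
                      pow_le_pow_left₀ (by positivity) he 4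
                  _ ≤ 55 := by norm_num
        have h4 : Real.exp (4 * x) = (n : ℝ) ^ 4 := by
          have h41 : Real.exp x = n := Real.exp_log hn0
          calc Real.exp (4 * x) = Real.exp x ^ 4 := by
                rw [← Real.exp_nat_mul]; push_cast; ring_nf
            _ = (n : ℝ) ^ 4 := by rw [h41]
        have h5 : 8 * (n : ℝ) ≤ (n : ℝ) ^ 4 := by
          have h51 : (2 : ℝ) ≤ n := by linarith
          have h52 : (8 : ℝ) ≤ (n : ℝ) ^ 3 := by
            calc (8 : ℝ) = 2 ^ 3 := by norm_num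
              _ ≤ (n : ℝ) ^ 3 := pow_le_pow_left₀ (by norm_num) h51 3
          calc 8 * (n : ℝ) ≤ (n : ℝ) ^ 3 * n := by gcongr
            _ = (n : ℝ) ^ 4 := by ring
        linarith
      calc 8 * (n : ℝ) * ((k : ℝ) * d) ^ k ≤ (55 : ℝ) ^ k * ((k : ℝ) * d) ^ k := by gcongr
        _ ≤ (n : ℝ) ^ k := h1

lemma desc_le (M N : ℕ) (h : M ≤ N) (k : ℕ) :
    M.descFactorial k * N ^ k ≤ N.descFactorial k * M ^ k := by
  induction k with
  | zero => simp
  | succ k ih =>
    rw [Nat.descFactorial_succ, Nat.descFactorial_succ, pow_succ, pow_succ]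
    have h1 : (M - k) * N ≤ (N - k) * M := by
      rcases Nat.lt_or_ge M k with hk | hk
      · rw [Nat.sub_eq_zero_of_le hk.le]; simp
      · zify [hk, hk.trans h]
        have : (k : ℤ) * M ≤ k * N := by
          apply mul_le_mul_of_nonneg_left _ (by positivity)
          exact_mod_cast h
        nlinarith
    calc (M - k) * M.descFactorial k * (N ^ k * N)
        = ((M - k) * N) * (M.descFactorial k * N ^ k) := by ring
      _ ≤ ((N - k) * M) * (N.descFactorial k * M ^ k) := Nat.mul_le_mul h1 ih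
      _ = (N - k) * N.descFactorial k * (M ^ k * M) := by ring

lemma choose_le' (M N : ℕ) (h : M ≤ N) (k : ℕ) :
    M.choose k * N ^ k ≤ N.choose k * M ^ k := by
  have h1 := desc_le M N h k
  rw [Nat.descFactorial_eq_factorial_mul_choose, Nat.descFactorial_eq_factorial_mul_choose] at h1
  have h2 : k.factorial * (M.choose k * N ^ k) ≤ k.factorial * (N.choose k * M ^ k) := by
    calc k.factorial * (M.choose k * N ^ k) = k.factorial * M.choose k * N ^ k := by ring
      _ ≤ k.factorial * N.choose k * M ^ k := h1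
      _ = k.factorial * (N.choose k * M ^ k) := by ring
  exact Nat.le_of_mul_le_mul_left h2 (Nat.factorial_pos k)

theorem GRO_proved (hLGR : S_LGR) : S_GRO := by
  refine ⟨CC, by unfold CC; positivity, ?_⟩
  intro n k hk hkn hC d hd
  have hn : 2 ≤ n := by omega
  have hx := log_pos_of hn
  have hbig := n_big hn (by omega) hC
  have hn0 : (0 : ℝ) < n := by linarith
  -- step
  have hstep : ∀ t : ℕ, t ≤ d → 8 * (n : ℝ) * (L n k t : ℝ) ≤ (L n k (t + 1) : ℝ) := by
    intro t ht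
    have ht' : ((t + 1 : ℕ) : ℝ) ≤ 74 * Real.log n := by
      have : (t : ℝ) ≤ d := by exact_mod_cast ht
      push_cast
      linarith
    obtain ⟨h1, h2⟩ := dom_cond hn hk hC ht'
    have h3 := hLGR n k t h1
    have h4 := choose_le' (k * (t + 1)) n h1 k
    have h3' : (L n k t : ℝ) * (n.choose k : ℝ) ≤
        (L n k (t + 1) : ℝ) * ((k * (t + 1)).choose k : ℝ) := by exact_mod_cast h3
    have h4' : ((k * (t + 1)).choose k : ℝ) * (n : ℝ) ^ k ≤
        (n.choose k : ℝ) * ((k : ℝ) * ((t + 1 : ℕ) : ℝ)) ^ k := by exact_mod_cast h4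
    have hch : (0 : ℝ) < (n.choose k : ℝ) := by
      exact_mod_cast Nat.choose_pos hkn.le
    have hL1 : (0 : ℝ) ≤ (L n k (t + 1) : ℝ) := Nat.cast_nonneg _
    have hL0 : (0 : ℝ) ≤ (L n k t : ℝ) := Nat.cast_nonneg _
    have h5 : (n.choose k : ℝ) * ((L n k t : ℝ) * (n : ℝ) ^ k) ≤
        (n.choose k : ℝ) * ((L n k (t + 1) : ℝ) * ((k : ℝ) * ((t + 1 : ℕ) : ℝ)) ^ k) := by
      calc (n.choose k : ℝ) * ((L n k t : ℝ) * (n : ℝ) ^ k)
          = ((L n k t : ℝ) * (n.choose k : ℝ)) * (n : ℝ) ^ k := by ring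
        _ ≤ ((L n k (t + 1) : ℝ) * ((k * (t + 1)).choose k : ℝ)) * (n : ℝ) ^ k := by gcongr
        _ = (L n k (t + 1) : ℝ) * (((k * (t + 1)).choose k : ℝ) * (n : ℝ) ^ k) := by ring
        _ ≤ (L n k (t + 1) : ℝ) * ((n.choose k : ℝ) * ((k : ℝ) * ((t + 1 : ℕ) : ℝ)) ^ k) := by
            gcongr
        _ = (n.choose k : ℝ) * ((L n k (t + 1) : ℝ) * ((k : ℝ) * ((t + 1 : ℕ) : ℝ)) ^ k) := by
            ring
    have h6 := le_of_mul_le_mul_left h5 hch
    have hkt : (0 : ℝ) < ((k : ℝ) * ((t + 1 : ℕ) : ℝ)) ^ k := by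
      have : (0 : ℝ) < (k : ℝ) := by
        have : 0 < k := by omega
        exact_mod_cast this
      positivity
    have h7 : (8 * (n : ℝ) * (L n k t : ℝ)) * ((k : ℝ) * ((t + 1 : ℕ) : ℝ)) ^ k ≤
        (L n k (t + 1) : ℝ) * ((k : ℝ) * ((t + 1 : ℕ) : ℝ)) ^ k := by
      calc (8 * (n : ℝ) * (L n k t : ℝ)) * ((k : ℝ) * ((t + 1 : ℕ) : ℝ)) ^ k
          = (L n k t : ℝ) * (8 * (n : ℝ) * ((k : ℝ) * ((t + 1 : ℕ) : ℝ)) ^ k) := by ring
        _ ≤ (L n k t : ℝ) * (n : ℝ) ^ k := by gcongr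
        _ ≤ _ := h6
    exact le_of_mul_le_mul_right h7 hkt
  -- iterate
  have hiter : ∀ e : ℕ, e ≤ d + 1 → ∀ j : ℕ, j ≤ e →
      (8 * (n : ℝ)) ^ j * (L n k (e - j) : ℝ) ≤ (L n k e : ℝ) := by
    intro e he j
    induction j with
    | zero => intro _; simp
    | succ j ih =>
      intro hj
      have h1 := ih (by omega)
      have h2 := hstep (e - (j + 1)) (by omega)
      have h3 : e - (j + 1) + 1 = e - j := by omega
      rw [h3] at h2
      calc (8 * (n : ℝ)) ^ (j + 1) * (L n k (e - (j + 1)) : ℝ)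
          = (8 * (n : ℝ)) ^ j * (8 * (n : ℝ) * (L n k (e - (j + 1)) : ℝ)) := by ring
        _ ≤ (8 * (n : ℝ)) ^ j * (L n k (e - j) : ℝ) := by gcongr
        _ ≤ _ := h1
  -- dominance
  have hdom : ∀ e : ℕ, e ≤ d + 1 → |(h n k e : ℝ) - (L n k e : ℝ)| ≤ (1 / 7) * (L n k e : ℝ) := by
    intro e he
    have h1 : (h n k e : ℝ) = ∑ j ∈ Finset.range (e + 1),
          (-1 : ℝ) ^ j * (n.choose j : ℝ) * (L n k (e - j) : ℝ) := by
      unfold h
      push_cast
      rfl
    rw [h1, Finset.sum_range_succ']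
    simp only [pow_zero, Nat.choose_zero_right, Nat.cast_one, one_mul, Nat.sub_zero,
      add_sub_cancel_right]
    calc |∑ j ∈ Finset.range e, (-1 : ℝ) ^ (j + 1) * (n.choose (j + 1) : ℝ) *
            (L n k (e - (j + 1)) : ℝ)|
        ≤ ∑ j ∈ Finset.range e, |(-1 : ℝ) ^ (j + 1) * (n.choose (j + 1) : ℝ) *
            (L n k (e - (j + 1)) : ℝ)| := Finset.abs_sum_le_sum_abs _ _
      _ ≤ ∑ j ∈ Finset.range e, (1 / 8 : ℝ) ^ (j + 1) * (L n k e : ℝ) := by
          apply Finset.sum_le_sum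
          intro j hj
          rw [Finset.mem_range] at hj
          rw [abs_mul, abs_mul, abs_pow, abs_neg, abs_one, one_pow, one_mul,
            abs_of_nonneg (Nat.cast_nonneg (α := ℝ) _), abs_of_nonneg (Nat.cast_nonneg (α := ℝ) _)]
          have h2 : (n.choose (j + 1) : ℝ) ≤ (n : ℝ) ^ (j + 1) := by
            exact_mod_cast Nat.choose_le_pow n (j + 1)
          have h3 := hiter e he (j + 1) (by omega)
          have h4 : (n : ℝ) ^ (j + 1) = (1 / 8 : ℝ) ^ (j + 1) * (8 * (n : ℝ)) ^ (j + 1) := by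
            rw [← mul_pow]; congr 1; ring
          calc (n.choose (j + 1) : ℝ) * (L n k (e - (j + 1)) : ℝ)
              ≤ (n : ℝ) ^ (j + 1) * (L n k (e - (j + 1)) : ℝ) := by gcongr
            _ = (1 / 8 : ℝ) ^ (j + 1) * ((8 * (n : ℝ)) ^ (j + 1) * (L n k (e - (j + 1)) : ℝ)) := by
                rw [h4]; ring
            _ ≤ (1 / 8 : ℝ) ^ (j + 1) * (L n k e : ℝ) := by gcongr
      _ = (∑ j ∈ Finset.range e, (1 / 8 : ℝ) ^ (j + 1)) * (L n k e : ℝ) := by
          rw [Finset.sum_mul]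
      _ ≤ (1 / 7) * (L n k e : ℝ) := by
          apply mul_le_mul_of_nonneg_right _ (Nat.cast_nonneg _)
          have h5 : ∑ j ∈ Finset.range e, (1 / 8 : ℝ) ^ (j + 1)
              = (1 / 8) * ∑ j ∈ Finset.range e, (1 / 8 : ℝ) ^ j := by
            rw [Finset.mul_sum]
            apply Finset.sum_congr rfl
            intro j _
            ring
          rw [h5, geom_sum_eq (by norm_num)]
          have h6 : (0 : ℝ) < (1 / 8) ^ e := by positivity
          have h7 : (1 / 8 : ℝ) * (((1 / 8) ^ e - 1) / (1 / 8 - 1)) = (1 - (1 / 8) ^ e) / 7 := by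
            ring
          rw [h7]
          linarith
  have h1 := hdom d (by omega)
  have h2 := hdom (d + 1) le_rfl
  have h3 := hstep d le_rfl
  have hL0 : (0 : ℝ) ≤ (L n k d : ℝ) := Nat.cast_nonneg _
  have h4 : (L n k d : ℝ) * 10 ≤ (L n k (d + 1) : ℝ) := by
    have : (10 : ℝ) ≤ 8 * (n : ℝ) := by
      have h2n : (2 : ℝ) ≤ n := by exact_mod_cast hn
      linarith
    calc (L n k d : ℝ) * 10 ≤ (L n k d : ℝ) * (8 * (n : ℝ)) := by gcongr
      _ = 8 * (n : ℝ) * (L n k d : ℝ) := by ring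
      _ ≤ _ := h3
  have h5 : (h n k d : ℝ) ≤ (h n k (d + 1) : ℝ) := by
    rw [abs_le] at h1 h2
    linarith [h1.1, h1.2, h2.1, h2.2]
  exact_mod_cast h5

end Pool.Agent.H87.KZ
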