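import Pool.Agent.H69.KZ.Stm

/-!
# Crew KZ, part LGR: double counting of `(x, S)`, `|S| = k`, `x + 1_S`
-/

set_option autoImplicit false

namespace Pool.Agent.H87.KZ

open Finset _root_.KZ

theorem LGR_proved : S_LGR := by
  intro n k t _
  classical
  set A : Finset (Fin n → Fin (t + 1)) := (Finset.univ).filter (fun x => ∑ i, (x i : ℕ) = k * t)
    with hA
  set B : Finset (Fin n → Fin (t + 1 + 1)) :=
    (Finset.univ).filter (fun x => ∑ i, (x i : ℕ) = k * (t + 1)) with hB
  have hLA : L n k t = A.card := rfl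
  have hLB : L n k (t + 1) = B.card := rfl
  let supp : (Fin n → Fin (t + 1 + 1)) → Finset (Fin n) := fun y => univ.filter (fun i => (y i : ℕ) ≠ 0)
  let R : Finset (Σ _ : (Fin n → Fin (t + 1 + 1)), Finset (Fin n)) :=
    B.sigma (fun y => powersetCard k (supp y))
  have hRcard : R.card ≤ B.card * (k * (t + 1)).choose k := by
    rw [Finset.card_sigma]
    have : ∀ y ∈ B, (powersetCard k (supp y)).card ≤ (k * (t + 1)).choose k := by
      intro y hy
      rw [Finset.card_powersetCard]
      apply Nat.choose_le_choose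
      rw [hB, Finset.mem_filter] at hy
      calc (supp y).card = ∑ i ∈ supp y, 1 := by simp
        _ ≤ ∑ i ∈ supp y, (y i : ℕ) := by
            apply Finset.sum_le_sum
            intro i hi
            have := (Finset.mem_filter.mp hi).2
            omega
        _ ≤ ∑ i, (y i : ℕ) := Finset.sum_le_sum_of_subset (Finset.subset_univ _)
        _ = k * (t + 1) := hy.2
    calc ∑ y ∈ B, (powersetCard k (supp y)).card ≤ ∑ _y ∈ B, (k * (t + 1)).choose k :=
          Finset.sum_le_sum this
      _ = B.card * (k * (t + 1)).choose k := by rw [Finset.sum_const, smul_eq_mul]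
  let f : (Fin n → Fin (t + 1)) × Finset (Fin n) →
      (Σ _ : (Fin n → Fin (t + 1 + 1)), Finset (Fin n)) := fun p =>
    ⟨fun i => ⟨(p.1 i : ℕ) + (if i ∈ p.2 then 1 else 0), by
      have := (p.1 i).isLt
      split_ifs <;> omega⟩, p.2⟩
  have hmaps : Set.MapsTo f (A ×ˢ powersetCard k (univ : Finset (Fin n)) : Finset _)
      (R : Set (Σ _ : (Fin n → Fin (t + 1 + 1)), Finset (Fin n))) := by
    rintro ⟨x, S⟩ hp
    rw [Finset.mem_coe, Finset.mem_product] at hp
    obtain ⟨hx, hS⟩ := hp
    rw [hA, Finset.mem_filter] at hx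
    rw [Finset.mem_powersetCard] at hS
    rw [Finset.mem_coe, Finset.mem_sigma]
    refine ⟨?_, ?_⟩
    · rw [hB, Finset.mem_filter]
      refine ⟨Finset.mem_univ _, ?_⟩
      show ∑ i, ((x i : ℕ) + (if i ∈ S then 1 else 0)) = k * (t + 1)
      rw [Finset.sum_add_distrib]
      have h1 : ∑ i : Fin n, (if i ∈ S then 1 else 0) = S.card := by
        rw [Finset.sum_ite_mem, Finset.univ_inter]
        simp
      rw [h1, hS.2]
      have h2 : ∑ i, (x i : ℕ) = k * t := hx.2
      rw [h2]
      ring
    · rw [Finset.mem_powersetCard]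
      refine ⟨?_, hS.2⟩
      intro i hi
      apply Finset.mem_filter.mpr
      refine ⟨Finset.mem_univ _, ?_⟩
      show ((x i : ℕ) + (if i ∈ S then 1 else 0)) ≠ 0
      have hi' : i ∈ S := hi
      rw [if_pos hi']
      omega
  have hinj : Set.InjOn f (A ×ˢ powersetCard k (univ : Finset (Fin n)) : Finset _) := by
    rintro ⟨x, S⟩ _ ⟨x', S'⟩ _ heq
    have h1 := (Sigma.mk.inj_iff.mp heq).1
    have h2 : S = S' := eq_of_heq (Sigma.mk.inj_iff.mp heq).2
    subst h2
    have h3 : x = x' := by
      funext i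
      have h4 := congrFun h1 i
      have h5 := congrArg Fin.val h4
      apply Fin.ext
      simpa using h5
    rw [h3]
  have hle := Finset.card_le_card_of_injOn f hmaps hinj
  rw [Finset.card_product, Finset.card_powersetCard, Finset.card_univ, Fintype.card_fin] at hle
  rw [hLA, hLB]
  exact hle.trans hRcard

end Pool.Agent.H87.KZ
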